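import Mathlib
import Pool.Agent.P2Gap.FinalAll

/-!
Problem MP_23c930_nt: blocks of `n` consecutive positive integers in which every member is
divisible by two distinct primes less than `n`, or by the square of a prime less than `n / 2`.

Such blocks exist.  In fact for every `C` and all large `n` there are `C * n` consecutive
positive integers each of which is divisible by two distinct primes less than `n`.
-/

set_option autoImplicit false

namespace Pool.Agent.Results.MP_23c930_nt.TwoPrimesInLongBlocks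

open Pool.Agent.P2Gap

/-- `x` is `n`-covered: it is divisible by the product of two distinct primes less than `n`, or
by the square of a prime less than `n / 2`. -/
def Covered (n x : ℕ) : Prop :=
  (∃ p q : ℕ, p.Prime ∧ q.Prime ∧ p ≠ q ∧ p < n ∧ q < n ∧ p * q ∣ x) ∨
    ∃ p : ℕ, p.Prime ∧ (p : ℝ) < (n : ℝ) / 2 ∧ p ^ 2 ∣ x

/-- For every `C` and all large `n` there is a block of length `C * n` all of whose members are
divisible by two distinct primes less than `n`. -/
theorem long_blocks (C : ℕ) :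
    ∃ n₀ : ℕ, ∀ n : ℕ, n₀ ≤ n → ∃ m : ℕ, ∀ i : ℕ, 1 ≤ i → i ≤ C * n →
      ∃ p q : ℕ, p.Prime ∧ q.Prime ∧ p ≠ q ∧ p < n ∧ q < n ∧ p * q ∣ m + i := by
  classical
  obtain ⟨E₀, hE₀⟩ := main_cover_all (16 * C + 8) (by omega)
  refine ⟨8 ^ (E₀ + 1) + 2, fun n hn => ?_⟩
  set N : ℕ := n - 1 with hNdef
  have hNge : 8 ^ (E₀ + 1) ≤ N := by omega
  have hN0 : N ≠ 0 := by
    have : 0 < 8 ^ (E₀ + 1) := by positivity
    omega
  set E : ℕ := Nat.log 8 N with hE
  have h1 : 8 ^ E ≤ N := Nat.pow_log_le_self 8 hN0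
  have h2 : N < 8 ^ (E + 1) := Nat.lt_pow_succ_log_self (by norm_num) N
  have h3 : E₀ ≤ E := by
    have : E₀ + 1 ≤ E := Nat.le_log_of_pow_le (by norm_num) hNge
    omega
  obtain ⟨a, ha⟩ := hE₀ E h3
  -- the Chinese remainder theorem
  set t : Finset ℕ := (Finset.range (N + 1)).filter Nat.Prime with ht
  have hpp : Set.Pairwise (t : Set ℕ) (Function.onFun Nat.Coprime (fun p : ℕ => p)) := by
    intro p hp q hq hpq
    have hp' := (Finset.mem_filter.1 hp).2
    have hq' := (Finset.mem_filter.1 hq).2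
    exact (Nat.coprime_primes hp' hq').2 hpq
  obtain ⟨m, hm⟩ := Nat.chineseRemainderOfFinset (fun p => p - a p % p) (fun p => p) t
    (fun p hp => (Finset.mem_filter.1 hp).2.ne_zero) hpp
  refine ⟨m, fun i hi1 hi2 => ?_⟩
  have hdvd : ∀ p ∈ t, i ≡ a p [MOD p] → p ∣ m + i := by
    intro p hp hip
    have hpr := (Finset.mem_filter.1 hp).2
    have hlt : a p % p < p := Nat.mod_lt _ hpr.pos
    have h5 : m + i ≡ (p - a p % p) + a p % p [MOD p] :=
      Nat.ModEq.add (hm p hp) (hip.trans (Nat.mod_modEq _ _).symm)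
    rw [Nat.sub_add_cancel hlt.le] at h5
    exact (Nat.modEq_zero_iff_dvd).1 (h5.trans (by simp [Nat.ModEq]))
  have h4 : i ≤ (16 * C + 8) * 8 ^ E := by
    have hn2 : n ≤ 2 * N := by omega
    have h2' : N ≤ 8 ^ (E + 1) := h2.le
    calc i ≤ C * n := hi2
      _ ≤ C * (2 * N) := Nat.mul_le_mul_left _ hn2
      _ ≤ C * (2 * 8 ^ (E + 1)) := by gcongr
      _ = (16 * C) * 8 ^ E := by rw [pow_succ]; ring
      _ ≤ (16 * C + 8) * 8 ^ E := Nat.mul_le_mul_right _ (by omega)
  have h6 : 1 < (t.filter (fun p => i ≡ a p [MOD p])).card := by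
    refine (Nat.lt_of_succ_le (ha i (Finset.mem_Icc.2 ⟨hi1, h4⟩))).trans_le
      (Finset.card_le_card ?_)
    intro p hp
    simp only [ht, Finset.mem_filter, Finset.mem_Ioc, Finset.mem_range] at hp ⊢
    exact ⟨⟨by omega, hp.1.2⟩, hp.2⟩
  obtain ⟨p, hp, q, hq, hpq⟩ := Finset.one_lt_card.1 h6
  obtain ⟨hpt, hpi⟩ := Finset.mem_filter.1 hp
  obtain ⟨hqt, hqi⟩ := Finset.mem_filter.1 hq
  have hp1 := Finset.mem_filter.1 hpt
  have hq1 := Finset.mem_filter.1 hqt
  have hpN := Finset.mem_range.1 hp1.1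
  have hqN := Finset.mem_range.1 hq1.1
  refine ⟨p, q, hp1.2, hq1.2, hpq, by omega, by omega, ?_⟩
  exact Nat.Coprime.mul_dvd_of_dvd_of_dvd ((Nat.coprime_primes hp1.2 hq1.2).2 hpq)
    (hdvd p hpt hpi) (hdvd q hqt hqi)

/-- Blocks of length `n` all of whose members are `n`-covered exist, for all large `n`; moreover
for every `C` and all large `n` there are `C * n` consecutive positive integers each divisible by
two distinct primes less than `n`. -/
theorem result :
    (∃ n m : ℕ, 1 ≤ n ∧ ∀ i : ℕ, 1 ≤ i → i ≤ n → Covered n (m + i)) ∧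
    ∀ C : ℕ, ∃ n₀ : ℕ, ∀ n : ℕ, n₀ ≤ n → ∃ m : ℕ, ∀ i : ℕ, 1 ≤ i → i ≤ C * n →
      ∃ p q : ℕ, p.Prime ∧ q.Prime ∧ p ≠ q ∧ p < n ∧ q < n ∧ p * q ∣ m + i := by
  refine ⟨?_, long_blocks⟩
  obtain ⟨n₀, hn₀⟩ := long_blocks 1
  obtain ⟨m, hm⟩ := hn₀ (n₀ + 1) (by omega)
  exact ⟨n₀ + 1, m, by omega, fun i h1 h2 => Or.inl (hm i h1 (by omega))⟩

end Pool.Agent.Results.MP_23c930_nt.TwoPrimesInLongBlocks
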